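import Pool.Agent.helper7.DF.Spec3

set_option autoImplicit false

open Finset

namespace Pool.Agent.DFO

theorem CLC_nohit (hN : NCY_stmt) (n k : ℕ) (a b : ℕ → ℕ) (hk : 1 ≤ k) (h : Good n k a b) :
    ¬ Hit n k := by
  rintro ⟨p, hp, hpk, h1⟩
  have := hN n k a b hk h p hp hpk 1 le_rfl
  rw [pow_one] at this
  omega

theorem CLC_large (hN : NCY_stmt) (c ε δ : ℝ) (A k₀ X₁ X : ℕ) (hε : 0 < ε) (hδ0 : 0 < δ)
    (hδ1 : δ ≤ ε / 4) (hδ2 : δ ≤ 1 / 2) (hA : 1 ≤ δ * A)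
    (hk₀ : ∀ k : ℕ, k₀ ≤ k → ∀ n : ℕ, k ≤ n → n ≤ k ^ A → Hit n k)
    (hX₁ : ∀ X : ℕ, X₁ ≤ X → ∀ k : ℕ, Real.log X ^ c ≤ (k : ℝ) → k ^ 2 ≤ X → ∀ E : Finset ℕ,
      (∀ n ∈ E, 0 < n ∧ n ≤ X ∧ ¬ Hit n k) → (#E : ℝ) ≤ (X : ℝ) ^ (1 / 2 + 1 / (2 * c) + ε / 4) * k)
    (hX1 : X₁ ≤ X) (hX2 : (k₀ : ℝ) ≤ (X : ℝ) ^ δ) (hX : 1 ≤ X) :
    (({z ∈ Pairs X | Real.log X ^ c ≤ (z.2 : ℝ)}.ncard : ℕ) : ℝ) ≤ (X : ℝ) ^ (1 / 2 + 1 / (2 * c) + ε) := by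
  classical
  have hXr : (1 : ℝ) ≤ X := by exact_mod_cast hX
  have hX0 : (0 : ℝ) < X := by linarith
  set K : ℕ := ⌊(X : ℝ) ^ δ⌋₊ with hK
  have hKX : (K : ℝ) ≤ (X : ℝ) ^ δ := Nat.floor_le (by positivity)
  set T : Finset (ℕ × ℕ) := ((Icc 1 X) ×ˢ (Icc 1 K)).filter
    (fun z => Real.log X ^ c ≤ (z.2 : ℝ) ∧ ¬ Hit z.1 z.2) with hT
  have hsub : {z ∈ Pairs X | Real.log X ^ c ≤ (z.2 : ℝ)} ⊆ (T : Set (ℕ × ℕ)) := by
    rintro ⟨n, k⟩ ⟨⟨h1, h2, h3, a, b, hG⟩, h4⟩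
    have h1' : 1 ≤ k := h1
    have h2' : k ≤ n := h2
    have h3' : n ≤ X := h3
    have h5 : ¬ Hit n k := CLC_nohit hN n k a b h1' hG
    have h6 : (k : ℝ) ≤ (X : ℝ) ^ δ := by
      by_contra hlt
      have h7 : (X : ℝ) ^ δ < k := not_le.1 hlt
      have h8 : k₀ ≤ k := by
        have : (k₀ : ℝ) < k := lt_of_le_of_lt hX2 h7
        exact_mod_cast this.le
      refine h5 (hk₀ k h8 n h2' ?_)
      have h9 : (X : ℝ) ≤ (k : ℝ) ^ A := by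
        calc (X : ℝ) = (X : ℝ) ^ (1 : ℝ) := (Real.rpow_one _).symm
          _ ≤ (X : ℝ) ^ (δ * A) := Real.rpow_le_rpow_of_exponent_le hXr hA
          _ = ((X : ℝ) ^ δ) ^ A := by rw [Real.rpow_mul hX0.le, Real.rpow_natCast]
          _ ≤ (k : ℝ) ^ A := pow_le_pow_left₀ (by positivity) h7.le A
      have h10 : X ≤ k ^ A := by exact_mod_cast h9
      omega
    have h7 : k ≤ K := Nat.le_floor h6
    rw [Finset.mem_coe, hT, Finset.mem_filter, Finset.mem_product, Finset.mem_Icc, Finset.mem_Icc]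
    exact ⟨⟨⟨by omega, h3'⟩, h1', h7⟩, h4, h5⟩
  have hcard : ({z ∈ Pairs X | Real.log X ^ c ≤ (z.2 : ℝ)}.ncard : ℕ) ≤ #T := by
    refine (Set.ncard_le_ncard hsub (Finset.finite_toSet _)).trans ?_
    rw [Set.ncard_coe_finset]
  have hfib : #T = ∑ k ∈ Icc 1 K, #{z ∈ T | z.2 = k} := by
    refine Finset.card_eq_sum_card_fiberwise fun z hz => ?_
    have hz' := (Finset.mem_filter.1 (Finset.mem_coe.1 hz)).1
    exact Finset.mem_coe.2 (Finset.mem_product.1 hz').2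
  have hone : ∀ k ∈ Icc 1 K, ((#{z ∈ T | z.2 = k} : ℕ) : ℝ) ≤
      (X : ℝ) ^ (1 / 2 + 1 / (2 * c) + ε / 4) * (X : ℝ) ^ δ := by
    intro k hk
    obtain ⟨hk1, hkK⟩ := Finset.mem_Icc.1 hk
    have hkX : (k : ℝ) ≤ (X : ℝ) ^ δ := le_trans (by exact_mod_cast hkK) hKX
    by_cases hlog : Real.log X ^ c ≤ (k : ℝ)
    · have hk2 : k ^ 2 ≤ X := by
        have h1 : (k : ℝ) ^ 2 ≤ X := by
          calc (k : ℝ) ^ 2 ≤ ((X : ℝ) ^ δ) ^ 2 := pow_le_pow_left₀ (by positivity) hkX 2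
            _ = (X : ℝ) ^ (δ * 2) := by rw [Real.rpow_mul hX0.le, Real.rpow_ofNat]
            _ ≤ (X : ℝ) ^ (1 : ℝ) := Real.rpow_le_rpow_of_exponent_le hXr (by linarith)
            _ = X := Real.rpow_one _
        exact_mod_cast h1
      have h2 : #{z ∈ T | z.2 = k} ≤ #((Icc 1 X).filter (fun n => ¬ Hit n k)) := by
        refine Finset.card_le_card_of_injOn (fun z => z.1) ?_ ?_
        · intro z hz
          obtain ⟨h3, h4⟩ := Finset.mem_filter.1 (Finset.mem_coe.1 hz)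
          obtain ⟨h5, _, h6⟩ := Finset.mem_filter.1 h3
          rw [h4] at h6
          exact Finset.mem_coe.2 (Finset.mem_filter.2 ⟨(Finset.mem_product.1 h5).1, h6⟩)
        · intro z hz w hw hzw
          have h3 := (Finset.mem_filter.1 (Finset.mem_coe.1 hz)).2
          have h4 := (Finset.mem_filter.1 (Finset.mem_coe.1 hw)).2
          exact Prod.ext hzw (h3.trans h4.symm)
      have h3 := hX₁ X hX1 k hlog hk2 ((Icc 1 X).filter (fun n => ¬ Hit n k)) (by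
        intro n hn
        obtain ⟨h4, h5⟩ := Finset.mem_filter.1 hn
        obtain ⟨h6, h7⟩ := Finset.mem_Icc.1 h4
        exact ⟨by omega, h7, h5⟩)
      calc ((#{z ∈ T | z.2 = k} : ℕ) : ℝ) ≤ (#((Icc 1 X).filter (fun n => ¬ Hit n k)) : ℕ) := by
            exact_mod_cast h2
        _ ≤ (X : ℝ) ^ (1 / 2 + 1 / (2 * c) + ε / 4) * k := h3
        _ ≤ (X : ℝ) ^ (1 / 2 + 1 / (2 * c) + ε / 4) * (X : ℝ) ^ δ :=
            mul_le_mul_of_nonneg_left hkX (by positivity)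
    · have h2 : #{z ∈ T | z.2 = k} = 0 := by
        rw [Finset.card_eq_zero, Finset.filter_eq_empty_iff]
        intro z hz hzk
        obtain ⟨_, h3, _⟩ := Finset.mem_filter.1 hz
        rw [hzk] at h3
        exact hlog h3
      rw [h2, Nat.cast_zero]
      positivity
  calc (({z ∈ Pairs X | Real.log X ^ c ≤ (z.2 : ℝ)}.ncard : ℕ) : ℝ) ≤ (#T : ℕ) := by
        exact_mod_cast hcard
    _ = ∑ k ∈ Icc 1 K, ((#{z ∈ T | z.2 = k} : ℕ) : ℝ) := by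
        rw [hfib, Nat.cast_sum]
    _ ≤ ∑ _k ∈ Icc 1 K, (X : ℝ) ^ (1 / 2 + 1 / (2 * c) + ε / 4) * (X : ℝ) ^ δ := Finset.sum_le_sum hone
    _ = K * ((X : ℝ) ^ (1 / 2 + 1 / (2 * c) + ε / 4) * (X : ℝ) ^ δ) := by
        rw [Finset.sum_const, Nat.card_Icc, nsmul_eq_mul, Nat.add_sub_cancel]
    _ ≤ (X : ℝ) ^ δ * ((X : ℝ) ^ (1 / 2 + 1 / (2 * c) + ε / 4) * (X : ℝ) ^ δ) :=
        mul_le_mul_of_nonneg_right hKX (by positivity)
    _ = (X : ℝ) ^ (δ + ((1 / 2 + 1 / (2 * c) + ε / 4) + δ)) := by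
        rw [Real.rpow_add hX0 δ, Real.rpow_add hX0 (1 / 2 + 1 / (2 * c) + ε / 4) δ]
    _ ≤ (X : ℝ) ^ (1 / 2 + 1 / (2 * c) + ε) := Real.rpow_le_rpow_of_exponent_le hXr (by linarith)

theorem CLC (hN : NCY_stmt) (hL : LSC_stmt) (hS : SUP_stmt) : CLC_stmt := by
  classical
  intro c ε hc hε
  set δ : ℝ := min (ε / 4) (1 / 2) with hδ
  have hδ0 : 0 < δ := lt_min (by positivity) (by norm_num)
  have hA : 1 ≤ δ * ((⌈1 / δ⌉₊ + 1 : ℕ) : ℝ) := by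
    have h1 : 1 / δ ≤ (⌈1 / δ⌉₊ : ℝ) := Nat.le_ceil _
    have h2 : δ * (1 / δ) = 1 := by field_simp
    push_cast
    nlinarith
  obtain ⟨k₀, hk₀⟩ := hS (⌈1 / δ⌉₊ + 1)
  obtain ⟨X₁, hX₁⟩ := hL c (ε / 4) hc (by positivity)
  obtain ⟨X₂, hX₂⟩ : ∃ X₂ : ℕ, ∀ X : ℕ, X₂ ≤ X → (k₀ : ℝ) ≤ (X : ℝ) ^ δ := by
    have h1 : Filter.Tendsto (fun X : ℕ => (X : ℝ) ^ δ) Filter.atTop Filter.atTop :=
      (tendsto_rpow_atTop hδ0).comp tendsto_natCast_atTop_atTop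
    exact Filter.eventually_atTop.1 (h1.eventually_ge_atTop _)
  refine ⟨1 + ((max X₁ X₂ : ℕ) : ℝ) ^ 2, fun X => ?_⟩
  rcases Nat.eq_zero_or_pos X with hX0 | hX0
  · have h1 : {z ∈ Pairs X | Real.log X ^ c ≤ (z.2 : ℝ)} = ∅ := by
      rw [Set.eq_empty_iff_forall_notMem]
      rintro z ⟨⟨h1, h2, h3, _⟩, _⟩
      omega
    rw [h1, Set.ncard_empty, Nat.cast_zero]
    positivity
  have hXr : (1 : ℝ) ≤ X := by exact_mod_cast hX0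
  have hpow : (1 : ℝ) ≤ (X : ℝ) ^ (1 / 2 + 1 / (2 * c) + ε) := by
    have h0 : (0 : ℝ) < 1 / (2 * c) := by positivity
    exact Real.one_le_rpow hXr (by linarith)
  rcases Nat.lt_or_ge X (max X₁ X₂) with hlt | hge
  · have hsub : {z ∈ Pairs X | Real.log X ^ c ≤ (z.2 : ℝ)} ⊆
        (((Icc 1 X) ×ˢ (Icc 1 X) : Finset (ℕ × ℕ)) : Set (ℕ × ℕ)) := by
      rintro z ⟨⟨h1, h2, h3, _⟩, _⟩
      rw [Finset.mem_coe, Finset.mem_product, Finset.mem_Icc, Finset.mem_Icc]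
      omega
    have h1 : ({z ∈ Pairs X | Real.log X ^ c ≤ (z.2 : ℝ)}.ncard : ℕ) ≤ X * X := by
      refine (Set.ncard_le_ncard hsub (Finset.finite_toSet _)).trans ?_
      rw [Set.ncard_coe_finset, Finset.card_product, Nat.card_Icc, Nat.add_sub_cancel]
    have h2 : (X : ℝ) * X ≤ ((max X₁ X₂ : ℕ) : ℝ) ^ 2 := by
      have h3 : (X : ℝ) ≤ ((max X₁ X₂ : ℕ) : ℝ) := by exact_mod_cast hlt.le
      nlinarith
    have h3 : (({z ∈ Pairs X | Real.log X ^ c ≤ (z.2 : ℝ)}.ncard : ℕ) : ℝ) ≤ (X : ℝ) * X := by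
      exact_mod_cast h1
    have h4 : (0 : ℝ) ≤ 1 + ((max X₁ X₂ : ℕ) : ℝ) ^ 2 := by positivity
    nlinarith
  · have h1 := CLC_large hN c ε δ (⌈1 / δ⌉₊ + 1) k₀ X₁ X hε hδ0 (min_le_left _ _) (min_le_right _ _)
      hA hk₀ hX₁ ((le_max_left _ _).trans hge) (hX₂ X ((le_max_right _ _).trans hge)) hX0
    have h4 : (0 : ℝ) ≤ ((max X₁ X₂ : ℕ) : ℝ) ^ 2 * (X : ℝ) ^ (1 / 2 + 1 / (2 * c) + ε) := by positivity
    linarith

end Pool.Agent.DFO
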