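import Pool.Agent.helper7.DF.Spec2

set_option autoImplicit false

open Finset

namespace Pool.Agent.DFO

theorem CNS_large (ε : ℝ) (X : ℕ)
    (hR : ∀ E : Finset ℕ, (∀ m ∈ E, 0 < m ∧ m ≤ 2 * X ∧ ∀ p : ℕ, p.Prime → p ∣ m →
      p ≤ ⌊Real.log X ^ 3⌋₊) → (#E : ℝ) ≤ (X : ℝ) ^ (2 / 3 + ε / 2))
    (hlog : Real.log X ^ 6 ≤ (X : ℝ) ^ (ε / 2)) (hX : 1 ≤ X) :
    (({z : ℕ × ℕ | 1 ≤ z.2 ∧ z.2 ≤ z.1 ∧ z.1 ≤ X ∧ (z.2 : ℝ) < Real.log X ^ 3 ∧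
      ∃ a b : ℕ → ℕ, Good z.1 z.2 a b ∧ ∃ j ∈ Icc 1 z.2, b j = 1}.ncard : ℕ) : ℝ) ≤
    (X : ℝ) ^ (2 / 3 + ε) := by
  classical
  have hXr : (1 : ℝ) ≤ X := by exact_mod_cast hX
  have hX0 : (0 : ℝ) < X := by linarith
  have hL0 : 0 ≤ Real.log X := Real.log_nonneg hXr
  set y : ℕ := ⌊Real.log X ^ 3⌋₊ with hy
  have hyL : (y : ℝ) ≤ Real.log X ^ 3 := Nat.floor_le (by positivity)
  set E : Finset ℕ := (Icc 1 (2 * X)).filter (fun m => ∀ p : ℕ, p.Prime → p ∣ m → p ≤ y) with hE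
  have hEc : (#E : ℝ) ≤ (X : ℝ) ^ (2 / 3 + ε / 2) := by
    refine hR E fun m hm => ?_
    obtain ⟨h1, h2⟩ := Finset.mem_filter.1 hm
    obtain ⟨h3, h4⟩ := Finset.mem_Icc.1 h1
    exact ⟨by omega, h4, h2⟩
  set T : Finset (ℕ × ℕ) := (((Icc 1 y) ×ˢ (Icc 1 y)) ×ˢ E).image
    (fun q => (q.2 - q.1.2, q.1.1)) with hT
  have hsub : {z : ℕ × ℕ | 1 ≤ z.2 ∧ z.2 ≤ z.1 ∧ z.1 ≤ X ∧ (z.2 : ℝ) < Real.log X ^ 3 ∧
      ∃ a b : ℕ → ℕ, Good z.1 z.2 a b ∧ ∃ j ∈ Icc 1 z.2, b j = 1} ⊆ (T : Set (ℕ × ℕ)) := by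
    rintro ⟨n, k⟩ ⟨h1, h2, h3, h4, a, b, hG, j, hj, hbj⟩
    have h1' : 1 ≤ k := h1
    have h2' : k ≤ n := h2
    have h3' : n ≤ X := h3
    have h4' : (k : ℝ) < Real.log X ^ 3 := h4
    have hky : k ≤ y := Nat.le_floor h4'.le
    obtain ⟨hj1, hj2⟩ := Finset.mem_Icc.1 hj
    have hj2' : j ≤ k := hj2
    have hm : n + j = a j := by
      have := hG.eq j hj
      rw [hbj, mul_one] at this
      exact this
    have hdvd : a j ∣ k.factorial := by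
      rw [← hG.prod]
      exact Finset.dvd_prod_of_mem a hj
    rw [Finset.mem_coe, hT, Finset.mem_image]
    refine ⟨((k, j), n + j), ?_, ?_⟩
    · rw [Finset.mem_product, Finset.mem_product, Finset.mem_Icc, Finset.mem_Icc, hE,
        Finset.mem_filter, Finset.mem_Icc]
      refine ⟨⟨⟨h1', hky⟩, hj1, hj2'.trans hky⟩, ⟨by show 1 ≤ n + j; omega, by show n + j ≤ 2 * X; omega⟩, ?_⟩
      intro p hp hpm
      have h5 : p ∣ k.factorial := dvd_trans (by rw [← hm]; exact hpm) hdvd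
      exact ((Nat.Prime.dvd_factorial hp).1 h5).trans hky
    · simp
  have hcard : ({z : ℕ × ℕ | 1 ≤ z.2 ∧ z.2 ≤ z.1 ∧ z.1 ≤ X ∧ (z.2 : ℝ) < Real.log X ^ 3 ∧
      ∃ a b : ℕ → ℕ, Good z.1 z.2 a b ∧ ∃ j ∈ Icc 1 z.2, b j = 1}.ncard : ℕ) ≤ y * y * #E := by
    refine (Set.ncard_le_ncard hsub (Finset.finite_toSet _)).trans ?_
    rw [Set.ncard_coe_finset]
    refine Finset.card_image_le.trans ?_
    rw [Finset.card_product, Finset.card_product, Nat.card_Icc, Nat.add_sub_cancel]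
  calc (({z : ℕ × ℕ | 1 ≤ z.2 ∧ z.2 ≤ z.1 ∧ z.1 ≤ X ∧ (z.2 : ℝ) < Real.log X ^ 3 ∧
        ∃ a b : ℕ → ℕ, Good z.1 z.2 a b ∧ ∃ j ∈ Icc 1 z.2, b j = 1}.ncard : ℕ) : ℝ)
      ≤ ((y * y * #E : ℕ) : ℝ) := by exact_mod_cast hcard
    _ = (y : ℝ) * y * (#E : ℝ) := by push_cast; ring
    _ ≤ Real.log X ^ 3 * Real.log X ^ 3 * (X : ℝ) ^ (2 / 3 + ε / 2) := by
        refine mul_le_mul (mul_le_mul hyL hyL (by positivity) (by positivity)) hEc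
          (by positivity) (by positivity)
    _ = Real.log X ^ 6 * (X : ℝ) ^ (2 / 3 + ε / 2) := by ring
    _ ≤ (X : ℝ) ^ (ε / 2) * (X : ℝ) ^ (2 / 3 + ε / 2) :=
        mul_le_mul_of_nonneg_right hlog (by positivity)
    _ = (X : ℝ) ^ (2 / 3 + ε) := by
        rw [← Real.rpow_add hX0]
        congr 1
        ring

theorem CNS (hRNK : RNK_stmt) : CNS_stmt := by
  classical
  intro ε hε
  obtain ⟨X₁, hX₁⟩ := hRNK (ε / 2) (by positivity)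
  obtain ⟨X₂, hX₂⟩ : ∃ X₂ : ℕ, ∀ X : ℕ, X₂ ≤ X → Real.log X ^ 6 ≤ (X : ℝ) ^ (ε / 2) := by
    have h1 := (isLittleO_log_rpow_rpow_atTop (6 : ℝ) (half_pos hε)).bound
      (zero_lt_one : (0 : ℝ) < 1)
    have h2 := tendsto_natCast_atTop_atTop.eventually h1
    obtain ⟨X₂, hX₂⟩ := Filter.eventually_atTop.1 h2
    refine ⟨X₂, fun X hX => ?_⟩
    have h3 := hX₂ X hX
    rw [one_mul, Real.norm_eq_abs, Real.norm_eq_abs, abs_of_nonneg (by positivity :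
      (0 : ℝ) ≤ (X : ℝ) ^ (ε / 2))] at h3
    have h4 : Real.log X ^ (6 : ℝ) = Real.log X ^ 6 := by
      exact_mod_cast Real.rpow_natCast (Real.log X) 6
    rw [h4] at h3
    exact (le_abs_self _).trans h3
  refine ⟨1 + ((max X₁ X₂ : ℕ) : ℝ) ^ 2, fun X => ?_⟩
  rcases Nat.eq_zero_or_pos X with hX0 | hX0
  · have h1 : {z : ℕ × ℕ | 1 ≤ z.2 ∧ z.2 ≤ z.1 ∧ z.1 ≤ X ∧ (z.2 : ℝ) < Real.log X ^ 3 ∧
        ∃ a b : ℕ → ℕ, Good z.1 z.2 a b ∧ ∃ j ∈ Icc 1 z.2, b j = 1} = ∅ := by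
      rw [Set.eq_empty_iff_forall_notMem]
      rintro z ⟨h1, h2, h3, _⟩
      omega
    rw [h1, Set.ncard_empty, Nat.cast_zero]
    positivity
  have hXr : (1 : ℝ) ≤ X := by exact_mod_cast hX0
  have hpow : (1 : ℝ) ≤ (X : ℝ) ^ (2 / 3 + ε) := Real.one_le_rpow hXr (by positivity)
  rcases Nat.lt_or_ge X (max X₁ X₂) with hlt | hge
  · have hsub : {z : ℕ × ℕ | 1 ≤ z.2 ∧ z.2 ≤ z.1 ∧ z.1 ≤ X ∧ (z.2 : ℝ) < Real.log X ^ 3 ∧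
        ∃ a b : ℕ → ℕ, Good z.1 z.2 a b ∧ ∃ j ∈ Icc 1 z.2, b j = 1} ⊆
        (((Icc 1 X) ×ˢ (Icc 1 X) : Finset (ℕ × ℕ)) : Set (ℕ × ℕ)) := by
      rintro z ⟨h1, h2, h3, _⟩
      rw [Finset.mem_coe, Finset.mem_product, Finset.mem_Icc, Finset.mem_Icc]
      omega
    have h1 : ({z : ℕ × ℕ | 1 ≤ z.2 ∧ z.2 ≤ z.1 ∧ z.1 ≤ X ∧ (z.2 : ℝ) < Real.log X ^ 3 ∧
        ∃ a b : ℕ → ℕ, Good z.1 z.2 a b ∧ ∃ j ∈ Icc 1 z.2, b j = 1}.ncard : ℕ) ≤ X * X := by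
      refine (Set.ncard_le_ncard hsub (Finset.finite_toSet _)).trans ?_
      rw [Set.ncard_coe_finset, Finset.card_product, Nat.card_Icc, Nat.add_sub_cancel]
    have h2 : (X : ℝ) * X ≤ ((max X₁ X₂ : ℕ) : ℝ) ^ 2 := by
      have h3 : (X : ℝ) ≤ ((max X₁ X₂ : ℕ) : ℝ) := by exact_mod_cast hlt.le
      nlinarith
    have h3 : (({z : ℕ × ℕ | 1 ≤ z.2 ∧ z.2 ≤ z.1 ∧ z.1 ≤ X ∧ (z.2 : ℝ) < Real.log X ^ 3 ∧
        ∃ a b : ℕ → ℕ, Good z.1 z.2 a b ∧ ∃ j ∈ Icc 1 z.2, b j = 1}.ncard : ℕ) : ℝ) ≤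
        (X : ℝ) * X := by
      exact_mod_cast h1
    have h4 : (0 : ℝ) ≤ 1 + ((max X₁ X₂ : ℕ) : ℝ) ^ 2 := by positivity
    nlinarith
  · have hXr0 : 0 ≤ Real.log X := Real.log_nonneg hXr
    have h1 := CNS_large ε X (fun E hE => hX₁ X ((le_max_left _ _).trans hge) _
      (Nat.floor_le (by positivity)) E hE) (hX₂ X ((le_max_right _ _).trans hge)) hX0
    have h4 : (0 : ℝ) ≤ ((max X₁ X₂ : ℕ) : ℝ) ^ 2 * (X : ℝ) ^ (2 / 3 + ε) := by positivity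
    linarith

end Pool.Agent.DFO
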